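import Pool.Agent.E8helper66.GB.Stm
import Pool.Agent.H373R2.T7.Vau

set_option autoImplicit false

/-!
# GB-10 (LAM): the dual function against the von Mangoldt function
-/

namespace Pool.Agent.E8helper77.GB

open Finset Pool.Agent.E8helper66.GB

theorem ev_log (K : ℕ) (c : ℝ) : ∃ N₀ : ℕ, ∀ N : ℕ, N₀ ≤ N → Real.log N ^ K ≤ N ∧ c ≤ Real.log N := by
  have h1 : ∀ᶠ x : ℝ in Filter.atTop, Real.log x ^ K ≤ x := by
    have h := (Real.isLittleO_pow_log_id_atTop (n := K)).bound (show (0 : ℝ) < 1 by norm_num)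
    filter_upwards [h, Filter.eventually_ge_atTop (1 : ℝ)] with x hx hx1
    have h2 : 0 ≤ Real.log x ^ K := pow_nonneg (Real.log_nonneg hx1) _
    rw [Real.norm_of_nonneg h2, one_mul, id, Real.norm_of_nonneg (by linarith)] at hx
    exact hx
  have h2 : ∀ᶠ x : ℝ in Filter.atTop, c ≤ Real.log x := Real.tendsto_log_atTop.eventually_ge_atTop c
  have h3 := tendsto_natCast_atTop_atTop (R := ℝ) |>.eventually (h1.and h2)
  obtain ⟨N₀, hN₀⟩ := Filter.eventually_atTop.1 h3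
  exact ⟨N₀, hN₀⟩

theorem FF_norm_le (N : ℕ) (E : ℕ → ℂ) (κ : ℤ → ℂ) (θ : ℤ → ℝ) (B : ℝ) (hE : ∀ y ∈ Icc 1 N, ‖E y‖ ≤ B)
    (hκ : ∀ h, ‖κ h‖ ≤ 1) (x : ℕ) : ‖FF N E κ θ x‖ ≤ N * B := by
  unfold FF
  refine (norm_sum_le _ _).trans ?_
  calc ∑ y ∈ Icc 1 N, ‖E y * (κ ((y : ℤ) - x) * Pool.Agent.H807R2.Dav.ee (θ ((y : ℤ) - x) * x))‖
      ≤ ∑ y ∈ Icc 1 N, B := by
        refine Finset.sum_le_sum fun y hy => ?_
        rw [norm_mul, norm_mul, Pool.Agent.H807R2.Dav.norm_ee, mul_one]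
        calc ‖E y‖ * ‖κ ((y : ℤ) - x)‖ ≤ ‖E y‖ * 1 := by gcongr; exact hκ _
          _ = ‖E y‖ := mul_one _
          _ ≤ B := hE y hy
    _ = N * B := by rw [Finset.sum_const, Nat.card_Icc, nsmul_eq_mul]; simp

/-- the sum over dyadic blocks -/
theorem dyad (f : ℕ → ℂ) (X₀ N : ℕ) (B : ℝ)
    (hblk : ∀ X X' : ℕ, X₀ ≤ X → X ≤ X' → X' ≤ 2 * X → X' ≤ N → ‖∑ x ∈ Ioc X X', f x‖ ≤ B) (k : ℕ) :
    ∀ X : ℕ, X₀ ≤ X → X ≤ 2 ^ k * X₀ → X ≤ N → ‖∑ x ∈ Ioc X₀ X, f x‖ ≤ k * B := by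
  induction k with
  | zero =>
    intro X h1 h2 _
    have : X = X₀ := by omega
    subst this
    simp
  | succ k ih =>
    intro X h1 h2 h3
    have h2' : X ≤ 2 * (2 ^ k * X₀) := by rw [pow_succ] at h2; nlinarith
    have hk1 : X₀ ≤ 2 ^ k * X₀ := Nat.le_mul_of_pos_left _ (by positivity)
    generalize hP : 2 ^ k * X₀ = P at *
    set Y := max X₀ ((X + 1) / 2) with hY
    have hY0 : X₀ ≤ Y := le_max_left _ _
    have hY1 : Y ≤ X := by
      rw [hY]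
      refine max_le h1 ?_
      omega
    have hY2 : X ≤ 2 * Y := by
      have : (X + 1) / 2 ≤ Y := le_max_right _ _
      omega
    have hY3 : Y ≤ P := by
      rw [hY]
      refine max_le hk1 ?_
      omega
    have e : ∑ x ∈ Ioc X₀ X, f x = ∑ x ∈ Ioc X₀ Y, f x + ∑ x ∈ Ioc Y X, f x :=
      (Finset.sum_Ioc_consecutive f hY0 hY1).symm
    rw [e]
    calc ‖∑ x ∈ Ioc X₀ Y, f x + ∑ x ∈ Ioc Y X, f x‖ ≤ _ := norm_add_le _ _
      _ ≤ k * B + B := add_le_add (ih Y hY0 hY3 (hY1.trans h3)) (hblk Y X hY0 hY1 hY2 h3)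
      _ = _ := by push_cast; ring

theorem t_LAM (h1 : S_TII) (h2 : S_TI) : S_LAM := by
  obtain ⟨C₂, hII⟩ := h1
  obtain ⟨C₁, hI⟩ := h2
  intro U
  set V₂ : ℕ := U + 10 with hV₂
  set V₁ : ℕ := C₂ * V₂ + C₂ * V₂ + V₂ with hV₁
  obtain ⟨N₀, hN₀⟩ := ev_log (V₁ * C₁ + V₁ + V₂ + 2) 100
  refine ⟨V₂ * C₂ + V₁ * C₁, N₀, ?_⟩
  intro N hN E κ θ hE hsup hκ
  obtain ⟨hbig, hl⟩ := hN₀ N hN
  set l : ℝ := Real.log N with hldef
  have hl1 : 1 ≤ l := by linarith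
  have hl0 : 0 < l := by linarith
  have hNpos : (0 : ℝ) < N := by
    rcases Nat.eq_zero_or_pos N with h | h
    · exfalso
      rw [hldef, h] at hl
      simp at hl
      linarith
    · exact_mod_cast h
  have hN1 : (1 : ℝ) ≤ N := by exact_mod_cast (show 1 ≤ N by exact_mod_cast hNpos)
  have hpm : ∀ a b : ℕ, a ≤ b → l ^ a ≤ l ^ b := fun a b h => pow_le_pow_right₀ hl1 h
  -- the parameters
  set T₂ : ℝ := l ^ V₂ with hT₂
  set T₁ : ℝ := l ^ V₁ with hT₁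
  have hT₂l : l ^ 2 ≤ T₂ := hpm _ _ (by omega)
  have hT₁l : l ^ 2 ≤ T₁ := hpm _ _ (by omega)
  have hl2 : 2 ≤ l ^ 2 := by nlinarith
  have hll : l ≤ l ^ 2 := by nlinarith
  set w : ℕ := ⌈T₂ ^ C₂⌉₊ with hw
  set W : ℕ := 2 * w with hW
  have hT2C : T₂ ^ C₂ = l ^ (C₂ * V₂) := by rw [hT₂, ← pow_mul, mul_comm]
  have hT2C1 : 1 ≤ T₂ ^ C₂ := by rw [hT2C]; exact one_le_pow₀ hl1
  have hwl : T₂ ^ C₂ ≤ w := Nat.le_ceil _
  have hwu : (w : ℝ) ≤ 2 * T₂ ^ C₂ := by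
    have := Nat.ceil_lt_add_one (show 0 ≤ T₂ ^ C₂ by positivity)
    linarith
  have hw1 : 1 ≤ w := by
    have : (1 : ℝ) ≤ w := hT2C1.trans hwl
    exact_mod_cast this
  have hWW : ((W * W : ℕ) : ℝ) ≤ 16 * l ^ (C₂ * V₂ + C₂ * V₂) := by
    push_cast
    rw [hW]
    push_cast
    rw [pow_add, ← hT2C]
    nlinarith
  have hWW' : ((W * W : ℕ) : ℝ) * l ^ V₂ ≤ 16 * T₁ := by
    calc ((W * W : ℕ) : ℝ) * l ^ V₂ ≤ 16 * l ^ (C₂ * V₂ + C₂ * V₂) * l ^ V₂ := by gcongr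
      _ = 16 * T₁ := by rw [hT₁, hV₁, pow_add l (C₂ * V₂ + C₂ * V₂) V₂]; ring
  have h16 : 16 ≤ l ^ V₂ := by
    calc (16 : ℝ) ≤ l := by linarith
      _ = l ^ 1 := (pow_one _).symm
      _ ≤ _ := hpm _ _ (by omega)
  have hWT₁ : ((W * W : ℕ) : ℝ) ≤ T₁ := by
    have h0 : 0 ≤ ((W * W : ℕ) : ℝ) := by positivity
    nlinarith
  set X₀ : ℕ := ⌊(N : ℝ) / l ^ (U + 4)⌋₊ with hX₀
  have hX₀l : (X₀ : ℝ) ≤ (N : ℝ) / l ^ (U + 4) := Nat.floor_le (by positivity)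
  have hWX₀ : W * W ≤ X₀ := by
    apply Nat.le_floor
    rw [le_div_iff₀ (by positivity)]
    calc ((W * W : ℕ) : ℝ) * l ^ (U + 4) ≤ ((W * W : ℕ) : ℝ) * l ^ V₂ := by
          gcongr
          omega
      _ ≤ 16 * T₁ := hWW'
      _ ≤ l * T₁ := by gcongr; linarith
      _ = l ^ (V₁ + 1) := by rw [hT₁, pow_succ]; ring
      _ ≤ l ^ (V₁ * C₁ + V₁ + V₂ + 2) := hpm _ _ (by nlinarith)
      _ ≤ N := hbig
  have hX₀N : X₀ ≤ N := by
    have : (X₀ : ℝ) ≤ N := hX₀l.trans (div_le_self hNpos.le (one_le_pow₀ hl1))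
    exact_mod_cast this
  have hX₀1 : 1 ≤ X₀ := le_trans (by nlinarith) hWX₀
  -- the data of the two estimates
  have hE₂ : ∀ y ∈ Icc 1 N, ‖E y‖ ≤ T₂ := fun y hy => (hE y hy).trans hT₂l
  have hE₁ : ∀ y ∈ Icc 1 N, ‖E y‖ ≤ T₁ := fun y hy => (hE y hy).trans hT₁l
  have hs₂ : SupLe N E (N / T₂ ^ C₂) := by
    intro α
    refine (hsup α).trans ?_
    rw [hT₂, ← pow_mul]
    gcongr
    omega
  have hs₁ : SupLe N E (N / T₁ ^ C₁) := by
    intro α
    refine (hsup α).trans ?_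
    rw [hT₁, ← pow_mul]
    gcongr
    omega
  have hT₁N : T₁ ^ C₁ ≤ N := by
    rw [hT₁, ← pow_mul]
    exact (hpm _ _ (by omega)).trans hbig
  set F := FF N E κ θ with hF
  set R : ℝ := (N : ℝ) ^ 2 / T₂ with hR
  set B : ℝ := 352 * (N : ℝ) ^ 2 / l ^ (U + 5) with hB
  have hB0 : 0 ≤ B := by positivity
  -- each block
  have hblk : ∀ X X' : ℕ, X₀ ≤ X → X ≤ X' → X' ≤ 2 * X → X' ≤ N →
      ‖∑ x ∈ Ioc X X', ((ArithmeticFunction.vonMangoldt x : ℝ) : ℂ) * F x‖ ≤ B := by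
    intro X X' hX hXX' hX2 hX'N
    have hX1 : 1 ≤ X := hX₀1.trans hX
    have hv := Pool.Agent.H373R2.T7.vaughan_gen F X X' W hX1 hXX' hX2 (by omega) (hWX₀.trans hX)
      (fun _ => (N : ℝ) ^ 2 / T₁) R (by positivity) (fun _ => by positivity)
      (by
        intro m hm b hb
        rw [Finset.mem_Icc] at hm
        have hmT : (m : ℝ) ≤ T₁ := by
          refine le_trans ?_ hWT₁
          exact_mod_cast hm.2
        have hmb : m * b ≤ N := by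
          calc m * b ≤ m * (X' / m) := Nat.mul_le_mul_left _ hb
            _ ≤ X' := Nat.mul_div_le _ _
            _ ≤ N := hX'N
        exact hI T₁ N m (X / m) b E κ θ (hl2.trans hT₁l) hT₁N hm.1 hmT hmb hE₁ hs₁ hκ)
      (by
        intro a b A₂ B₂ hA₂ hB₂ M L hM hL hWM hWL hML ha hb
        have hMT : T₂ ^ C₂ ≤ M := by
          refine hwl.trans ?_
          exact_mod_cast (show w ≤ M by omega)
        have hLT : T₂ ^ C₂ ≤ L := by
          refine hwl.trans ?_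
          exact_mod_cast (show w ≤ L by omega)
        exact hII T₂ N M L X X' E κ θ a b A₂ B₂ (hl2.trans hT₂l) (hll.trans hT₂l) hMT hLT
          (hML.trans hX'N) hX'N hE₂ hs₂ hκ hA₂ hB₂ ha hb)
    refine hv.trans ?_
    have hX1R : (1 : ℝ) ≤ X := by exact_mod_cast hX1
    have hXN : (X : ℝ) ≤ N := by exact_mod_cast hXX'.trans hX'N
    have hLg : 1 + Real.log (4 * X) ≤ 2 * l := by
      have h4 : Real.log (4 * X) ≤ Real.log 4 + l := by
        rw [Real.log_mul (by norm_num) (by linarith), hldef]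
        have := Real.log_le_log (by linarith) hXN
        linarith
      have h5 : Real.log 4 ≤ 4 := by
        have := Real.log_le_sub_one_of_pos (show (0 : ℝ) < 4 by norm_num)
        linarith
      linarith
    have hLg0 : 0 ≤ 1 + Real.log (4 * X) := by
      have : 0 ≤ Real.log (4 * (X : ℝ)) := Real.log_nonneg (by linarith)
      linarith
    have hsum : ∑ _m ∈ Icc 1 (W * W), (N : ℝ) ^ 2 / T₁ ≤ 16 * R := by
      rw [Finset.sum_const, Nat.card_Icc, nsmul_eq_mul]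
      have e : ((W * W + 1 - 1 : ℕ) : ℝ) = ((W * W : ℕ) : ℝ) := by simp
      rw [e, hR, ← mul_div_assoc, ← mul_div_assoc, div_le_div_iff₀ (by positivity) (by positivity)]
      calc ((W * W : ℕ) : ℝ) * (N : ℝ) ^ 2 * T₂ = (((W * W : ℕ) : ℝ) * T₂) * (N : ℝ) ^ 2 := by ring
        _ ≤ (16 * T₁) * (N : ℝ) ^ 2 := by gcongr
        _ = _ := by ring
    have hsum0 : 0 ≤ ∑ _m ∈ Icc 1 (W * W), (N : ℝ) ^ 2 / T₁ := Finset.sum_nonneg fun _ _ => by positivity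
    have hR0 : 0 ≤ R := by positivity
    calc 8 * (1 + Real.log (4 * X)) ^ 5 * R + 3 * (1 + Real.log (4 * X)) * ∑ _m ∈ Icc 1 (W * W), (N : ℝ) ^ 2 / T₁
        ≤ 8 * (2 * l) ^ 5 * R + 3 * (2 * l) * (16 * R) := by gcongr
      _ = (256 * l ^ 5 + 96 * l) * R := by ring
      _ ≤ (256 * l ^ 5 + 96 * l ^ 5) * R := by
          gcongr
          calc l = l ^ 1 := (pow_one _).symm
            _ ≤ l ^ 5 := hpm _ _ (by norm_num)
      _ = 352 * (l ^ 5 * R) := by ring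
      _ = B := by
          rw [hB, hR, hT₂, hV₂]
          have : l ^ (U + 10) = l ^ (U + 5) * l ^ 5 := by rw [← pow_add]
          rw [this]
          field_simp
  -- the number of blocks
  set k : ℕ := ⌈2 * l⌉₊ with hk
  have hkl : 2 * l ≤ k := Nat.le_ceil _
  have hku : (k : ℝ) ≤ 3 * l := by
    have := Nat.ceil_lt_add_one (show 0 ≤ 2 * l by positivity)
    linarith
  have hNk : N ≤ 2 ^ k * X₀ := by
    have h3 : (N : ℝ) ≤ 2 ^ k := by
      have h4 : l ≤ Real.log ((2 : ℝ) ^ k) := by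
        rw [Real.log_pow]
        have h5 := Real.log_two_gt_d9
        nlinarith
      have h6 := (Real.log_le_log_iff hNpos (by positivity)).1 h4
      exact h6
    have h7 : N ≤ 2 ^ k := by exact_mod_cast h3
    calc N ≤ 2 ^ k * 1 := by omega
      _ ≤ _ := Nat.mul_le_mul_left _ hX₀1
  have hmain := dyad (fun x => ((ArithmeticFunction.vonMangoldt x : ℝ) : ℂ) * F x) X₀ N B hblk k N hX₀N hNk le_rfl
  have hsplit : ∑ x ∈ Icc 1 N, ((ArithmeticFunction.vonMangoldt x : ℝ) : ℂ) * F x =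
      ∑ x ∈ Icc 1 X₀, ((ArithmeticFunction.vonMangoldt x : ℝ) : ℂ) * F x +
      ∑ x ∈ Ioc X₀ N, ((ArithmeticFunction.vonMangoldt x : ℝ) : ℂ) * F x := by
    have e1 : Icc 1 N = Ioc 0 N := by ext; simp [Nat.one_le_iff_ne_zero, Nat.pos_iff_ne_zero]
    have e2 : Icc 1 X₀ = Ioc 0 X₀ := by ext; simp [Nat.one_le_iff_ne_zero, Nat.pos_iff_ne_zero]
    rw [e1, e2]
    exact (Finset.sum_Ioc_consecutive _ (Nat.zero_le _) hX₀N).symm
  have htriv : ‖∑ x ∈ Icc 1 X₀, ((ArithmeticFunction.vonMangoldt x : ℝ) : ℂ) * F x‖ ≤ (N : ℝ) ^ 2 / l ^ (U + 1) := by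
    refine (norm_sum_le _ _).trans ?_
    calc ∑ x ∈ Icc 1 X₀, ‖((ArithmeticFunction.vonMangoldt x : ℝ) : ℂ) * F x‖ ≤ ∑ x ∈ Icc 1 X₀, l * (N * l ^ 2) := by
          refine Finset.sum_le_sum fun x hx => ?_
          rw [Finset.mem_Icc] at hx
          rw [norm_mul, Complex.norm_real, Real.norm_of_nonneg ArithmeticFunction.vonMangoldt_nonneg]
          have h8 : ArithmeticFunction.vonMangoldt x ≤ l := by
            refine ArithmeticFunction.vonMangoldt_le_log.trans ?_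
            rw [hldef]
            apply Real.log_le_log
            · exact_mod_cast hx.1
            · exact_mod_cast hx.2.trans hX₀N
          have h9 : ‖F x‖ ≤ N * l ^ 2 := FF_norm_le N E κ θ (l ^ 2) hE hκ x
          gcongr
      _ = X₀ * (l * (N * l ^ 2)) := by rw [Finset.sum_const, Nat.card_Icc, nsmul_eq_mul]; simp
      _ ≤ ((N : ℝ) / l ^ (U + 4)) * (l * (N * l ^ 2)) := by gcongr
      _ = (N : ℝ) ^ 2 / l ^ (U + 1) := by
          have : l ^ (U + 4) = l ^ (U + 1) * l ^ 3 := by rw [← pow_add]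
          rw [this]
          field_simp
  rw [hsplit]
  calc ‖∑ x ∈ Icc 1 X₀, ((ArithmeticFunction.vonMangoldt x : ℝ) : ℂ) * F x +
      ∑ x ∈ Ioc X₀ N, ((ArithmeticFunction.vonMangoldt x : ℝ) : ℂ) * F x‖ ≤ _ := norm_add_le _ _
    _ ≤ (N : ℝ) ^ 2 / l ^ (U + 1) + k * B := add_le_add htriv hmain
    _ ≤ (N : ℝ) ^ 2 / l ^ (U + 1) + 3 * l * B := by gcongr
    _ = ((N : ℝ) ^ 2 / l ^ U) * (1 / l + 1056 / l ^ 4) := by
        rw [hB, pow_add l U 1, pow_add l U 5]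
        field_simp
        ring
    _ ≤ ((N : ℝ) ^ 2 / l ^ U) * 1 := by
        gcongr
        have h10 : 1 / l ≤ 1 / 100 := by gcongr
        have h11 : 1056 / l ^ 4 ≤ 1056 / 100 ^ 4 := by gcongr
        norm_num at h11
        linarith
    _ = _ := mul_one _

end Pool.Agent.E8helper77.GB
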