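import Pool.Agent.E8helper66.GB.Stm2
import Pool.Agent.E8helper54.GB.Loc

set_option autoImplicit false

/-!
# Project GB, piece 21 (LOC3): local densities with the third factor `2 b + 3`
-/

namespace Pool.Agent.E8helper77.GB

open Finset
open Pool.Agent.H373R2.T7
open Pool.Agent.E8helper66.GB
open Pool.Agent.E8helper54.GB

/-- the condition with the third linear form -/
def Q3 (a : ℕ) (p b : ℕ) : Prop := Q1 a p b ∨ p ∣ 2 * b + 3

lemma two_mod (p n : ℕ) : p ∣ 2 * n + 3 ↔ p ∣ 2 * (n % p) + 3 := by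
  have h : 2 * n + 3 = (2 * (n % p) + 3) + p * (2 * (n / p)) := by
    have := Nat.mod_add_div n p
    have e : p * (2 * (n / p)) = 2 * (p * (n / p)) := by ring
    omega
  conv_lhs => rw [h]
  exact (Nat.dvd_add_left (dvd_mul_right _ _))

open Classical in
lemma two_class (p : ℕ) (hp : p.Prime) : ((range p).filter (fun r : ℕ => p ∣ 2 * r + 3)).card ≤ 1 := by
  rw [card_le_one]
  intro x hx y hy
  rw [mem_filter, mem_range] at hx hy
  have hp2 : ¬ p ∣ 2 := by
    intro h
    have h3 : p = 2 := (Nat.prime_dvd_prime_iff_eq hp Nat.prime_two).1 h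
    have := hx.2
    rw [h3] at this
    omega
  have key : ∀ x y : ℕ, x < p → y < p → p ∣ 2 * x + 3 → p ∣ 2 * y + 3 → x ≤ y → x = y := by
    intro x y hx1 hy1 hx2 hy2 hxy
    have h1 : p ∣ (2 * y + 3) - (2 * x + 3) := Nat.dvd_sub hy2 hx2
    have h2 : (2 * y + 3) - (2 * x + 3) = 2 * (y - x) := by omega
    rw [h2] at h1
    rcases hp.dvd_mul.1 h1 with h | h
    · exact absurd h hp2
    · have := Nat.eq_zero_of_dvd_of_lt h (by omega)
      omega
  rcases le_total x y with h | h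
  · exact key x y hx.1 hy.1 hx.2 hy.2 h
  · exact (key y x hy.1 hx.1 hy.2 hx.2 h).symm

lemma nuB_Q3 (a p : ℕ) (hp : p.Prime) : nuB (Q3 a) p ≤ 3 := by
  classical
  have ha := nuB_Q1 a p
  unfold nuB at *
  have h : (range p).filter (fun r => Q3 a p r) ⊆ (range p).filter (fun r => Q1 a p r) ∪ (range p).filter (fun r => p ∣ 2 * r + 3) := by
    intro r hr
    rw [mem_filter] at hr
    rw [mem_union, mem_filter, mem_filter]
    rcases hr.2 with h | h
    · exact Or.inl ⟨hr.1, h⟩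
    · exact Or.inr ⟨hr.1, h⟩
  have h1 := card_le_card h
  have h2 := card_union_le ((range p).filter (fun r => Q1 a p r)) ((range p).filter (fun r => p ∣ 2 * r + 3))
  have ha' : ((range p).filter (fun r => Q1 a p r)).card ≤ 2 := by convert ha
  have hc' : ((range p).filter (fun r => p ∣ 2 * r + 3)).card ≤ 1 := by convert two_class p hp
  have h5 : ((range p).filter (fun r => Q3 a p r)).card ≤ 3 := by omega
  convert h5

lemma per3 (a : ℕ) : PerB (Q3 a) 3 :=
  ⟨fun p n => or_congr (Q1_mod a p n) (two_mod p n), fun p hp => nuB_Q3 a p hp⟩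

lemma adm3 (a : ℕ) (h3 : 3 ∣ a) (p : ℕ) (hp : p.Prime) : nuB (Q3 a) p + 1 ≤ p := by
  have hp2 := hp.two_le
  by_cases h5 : 5 ≤ p
  · have := nuB_Q3 a p hp
    omega
  have hp3 : p = 2 ∨ p = 3 := by
    have : p ≠ 4 := by rintro rfl; revert hp; decide
    omega
  rcases hp3 with rfl | rfl
  · apply adm_of _ 2 ((a + 1) % 2) (Nat.mod_lt _ (by norm_num))
    unfold Q3 Q1
    push_cast
    omega
  · apply adm_of _ 3 1 (by norm_num)
    unfold Q3 Q1
    rintro ((h | h) | h)
    · push_cast at h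
      omega
    · push_cast at h
      omega
    · revert h
      decide

open Classical in
lemma KZ3_eq (z a b : ℕ) : KZ z a b * lamz z (2 * b + 3) = if ∀ p ∈ pz z, ¬ Q3 a p b then ((Vz z)⁻¹) ^ 3 else 0 := by
  rw [KZ_eq]
  unfold lamz
  by_cases h1 : ∀ p ∈ pz z, ¬ Q1 a p b
  · by_cases h2 : ∀ p ∈ pz z, ¬ p ∣ 2 * b + 3
    · rw [if_pos h1, if_pos h2, if_pos]
      · ring
      · intro p hp
        exact not_or.2 ⟨h1 p hp, h2 p hp⟩
    · rw [if_neg h2, mul_zero, if_neg]
      intro h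
      exact h2 fun p hp hd => h p hp (Or.inr hd)
  · rw [if_neg h1, zero_mul, if_neg]
    intro h
    exact h1 fun p hp hd => h p hp (Or.inl hd)

theorem t_LOC3 : S_LOC3 := by
  classical
  refine ⟨cm 3 / 2, half_pos (cm_pos 3 (by norm_num)), fun K => ?_⟩
  obtain ⟨n1, h1⟩ := gen 3 K (by norm_num)
  refine ⟨n1, fun n hn z hz hzK a _ ha3 => ?_⟩
  have a1 := h1 n hn z hz hzK (Q3 a) (per3 a) (adm3 a ha3)
  have e : ∑ b ∈ Icc 1 n, KZ z a b * lamz z (2 * b + 3) =
      ((Vz z)⁻¹) ^ 3 * ((((Icc 1 n).filter (fun b : ℕ => ∀ p ∈ pz z, ¬ Q3 a p b)).card : ℕ) : ℝ) := by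
    rw [sum_congr rfl (fun b _ => KZ3_eq z a b), ← sum_filter, sum_const, nsmul_eq_mul, mul_comm]
  rw [e]
  exact a1

end Pool.Agent.E8helper77.GB
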