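import Pool.Agent.E8helper66.GB.Stm

set_option autoImplicit false

/-!
# GB-1 (REC): recurrence of a linear phase on a dense set of integers
-/

namespace Pool.Agent.E8helper77.GB

open Finset Pool.Agent.E8helper66.GB

theorem nn_eq (x : ℝ) : nn x = |x - round x| := by
  unfold nn; rw [UnitAddCircle.norm_eq]

theorem nn_nonneg (x : ℝ) : 0 ≤ nn x := norm_nonneg _

theorem nn_sub_le (x y : ℝ) : nn (x - y) ≤ nn x + nn y := by
  unfold nn
  rw [AddCircle.coe_sub]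
  exact norm_sub_le _ _

theorem nn_add_int (x : ℝ) (n : ℤ) : nn (x + n) = nn x := by
  rw [nn_eq, nn_eq]
  rw [round_add_intCast]
  push_cast
  congr 1
  ring

theorem nn_neg (x : ℝ) : nn (-x) = nn x := by
  unfold nn
  rw [AddCircle.coe_neg, norm_neg]

theorem nn_small (x : ℝ) (hx : |x| ≤ 1 / 2) : nn x = |x| := by
  unfold nn
  rw [AddCircle.norm_coe_eq_abs_iff (p := (1 : ℝ)) (by norm_num)]
  rw [abs_one]
  exact hx

/-- two elements of `S` at a small distance -/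
theorem exists_gap (η : ℝ) (M : ℕ) (a : ℤ) (S : Finset ℤ) (hS : S ⊆ Ico a (a + M)) (h0 : 0 < η)
    (h1 : η ≤ 1) (hc : η * M ≤ S.card) (hM : 64 / η ^ 2 ≤ M) :
    ∃ m ∈ S, ∃ m' ∈ S, m < m' ∧ ((m' - m : ℤ) : ℝ) ≤ 2 / η := by
  have hηM : 64 ≤ η * M := by
    have : 64 / η ≤ η * M := by
      have := mul_le_mul_of_nonneg_left hM h0.le
      calc 64 / η = η * (64 / η ^ 2) := by field_simp
        _ ≤ _ := this
    refine le_trans ?_ this
    rw [le_div_iff₀ h0]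
    linarith
  set b : ℕ := ⌊2 / η⌋₊ with hb
  have hx2 : (2 : ℝ) ≤ 2 / η := by rw [le_div_iff₀ h0]; linarith
  have hb2 : 2 ≤ b := Nat.le_floor (by exact_mod_cast hx2)
  have hbl : (b : ℝ) ≤ 2 / η := Nat.floor_le (by positivity)
  have hbu : 2 / η < b + 1 := Nat.lt_floor_add_one _
  have hb3 : (4 / 3) / η ≤ b := by
    have hb2' : (2 : ℝ) ≤ b := by exact_mod_cast hb2
    have h3 : (4 / 3) / η = (2 / 3) * (2 / η) := by ring
    rw [h3]
    nlinarith
  have hb0 : (0 : ℤ) < b := by exact_mod_cast (show 0 < b by omega)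
  have key : ((Finset.Icc (0 : ℤ) ((M : ℤ) / b)).card : ℝ) < S.card := by
    rw [Int.card_Icc]
    have hnn : (0 : ℤ) ≤ (M : ℤ) / b := Int.ediv_nonneg (by positivity) (by positivity)
    have : ((((M : ℤ) / b + 1 - 0).toNat : ℕ) : ℝ) = (((M : ℤ) / b : ℤ) : ℝ) + 1 := by
      have h := Int.toNat_of_nonneg (show 0 ≤ (M : ℤ) / b + 1 - 0 by omega)
      have h' : ((((M : ℤ) / b + 1 - 0).toNat : ℤ) : ℝ) = (((M : ℤ) / b + 1 - 0 : ℤ) : ℝ) := by rw [h]
      rw [Int.cast_natCast] at h'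
      rw [h']; push_cast; ring
    rw [this]
    have hdiv : (((M : ℤ) / b : ℤ) : ℝ) ≤ (M : ℝ) / b := by
      rw [le_div_iff₀ (by exact_mod_cast hb0)]
      have := Int.ediv_mul_le (M : ℤ) (ne_of_gt hb0)
      exact_mod_cast this
    have h4 : (M : ℝ) / b ≤ 3 / 4 * (η * M) := by
      rw [div_le_iff₀ (by exact_mod_cast hb0)]
      have : (4 / 3) / η * (3 / 4 * (η * M)) = M := by field_simp
      calc (M : ℝ) = (4 / 3) / η * (3 / 4 * (η * M)) := this.symm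
        _ ≤ b * (3 / 4 * (η * M)) := by gcongr
        _ = _ := by ring
    linarith
  have key' : (Finset.Icc (0 : ℤ) ((M : ℤ) / b)).card < S.card := by exact_mod_cast key
  obtain ⟨x, hx, y, hy, hxy, hf⟩ := Finset.exists_ne_map_eq_of_card_lt_of_maps_to key'
    (f := fun m => (m - a) / b) (fun m hm => by
      have := hS hm
      rw [Finset.mem_Ico] at this
      rw [Finset.mem_coe, Finset.mem_Icc]
      refine ⟨Int.ediv_nonneg (by omega) hb0.le, Int.ediv_le_ediv hb0 (by omega)⟩)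
  have hclose : ∀ x y : ℤ, (x - a) / b = (y - a) / b → x < y → ((y - x : ℤ) : ℝ) ≤ 2 / η := by
    intro x y hf hlt
    have e1 := Int.emod_add_mul_ediv (x - a) b
    have e2 := Int.emod_add_mul_ediv (y - a) b
    have r1 := Int.emod_nonneg (x - a) (ne_of_gt hb0)
    have r2 := Int.emod_lt_of_pos (y - a) hb0
    rw [hf] at e1
    have : y - x ≤ b := by linarith
    calc ((y - x : ℤ) : ℝ) ≤ ((b : ℤ) : ℝ) := by exact_mod_cast this
      _ ≤ _ := by exact_mod_cast hbl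
  rcases lt_or_gt_of_ne hxy with h | h
  · exact ⟨x, hx, y, hy, h, hclose x y hf h⟩
  · exact ⟨y, hy, x, hx, h, hclose y x hf.symm h⟩

theorem t_REC : S_REC := by
  intro Ψ c ε η M a S hS h0 h1 hc hε hε' hM hnn
  obtain ⟨m₁, hm₁, m₂, hm₂, hlt, hq2⟩ := exists_gap η M a S hS h0 h1 hc hM
  have hηM : 64 ≤ η ^ 2 * M := by
    rw [div_le_iff₀ (by positivity)] at hM
    linarith
  have hMpos : (0 : ℝ) < M := by
    by_contra h
    push Not at h
    nlinarith [sq_nonneg η]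
  have hdiff : ∀ m ∈ S, ∀ m' ∈ S, nn (((m' - m : ℤ) : ℝ) * Ψ) ≤ 2 * ε := by
    intro m hm m' hm'
    have h := nn_sub_le ((m' : ℝ) * Ψ + c) ((m : ℝ) * Ψ + c)
    have e : ((m' : ℝ) * Ψ + c) - ((m : ℝ) * Ψ + c) = ((m' - m : ℤ) : ℝ) * Ψ := by push_cast; ring
    rw [e] at h
    linarith [hnn m hm, hnn m' hm']
  set q : ℕ := (m₂ - m₁).toNat with hq
  have hqz : (q : ℤ) = m₂ - m₁ := Int.toNat_of_nonneg (by omega)
  have hq1 : 1 ≤ q := by omega
  have hqR : (q : ℝ) = ((m₂ - m₁ : ℤ) : ℝ) := by exact_mod_cast hqz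
  have hq2' : (q : ℝ) ≤ 2 / η := by rw [hqR]; exact hq2
  refine ⟨q, hq1, hq2', ?_⟩
  have hqnn : nn (q * Ψ) ≤ 2 * ε := by
    rw [hqR]; exact hdiff m₁ hm₁ m₂ hm₂
  set ψ : ℝ := q * Ψ - round (q * Ψ) with hψ
  have hψn : nn (q * Ψ) = |ψ| := nn_eq _
  rw [hψn] at hqnn ⊢
  by_contra hcon
  push Not at hcon
  have hψpos : 0 < |ψ| := lt_of_le_of_lt (by positivity) hcon
  have hψ32 : |ψ| ≤ 1 / 32 := by
    have : ε ≤ 1 / 64 := by linarith
    linarith
  -- the length of a window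
  set ℓ : ℕ := ⌊1 / (2 * |ψ|)⌋₊ with hℓ
  have h16 : (16 : ℝ) ≤ 1 / (2 * |ψ|) := by
    rw [le_div_iff₀ (by positivity)]; linarith
  have hℓl : (ℓ : ℝ) ≤ 1 / (2 * |ψ|) := Nat.floor_le (by positivity)
  have hℓu : 1 / (2 * |ψ|) < ℓ + 1 := Nat.lt_floor_add_one _
  have hℓ16 : 16 ≤ ℓ := Nat.le_floor (by exact_mod_cast h16)
  have hℓ4 : 1 ≤ 4 * |ψ| * ℓ := by
    have h8 : (1 : ℝ) / (4 * |ψ|) ≤ ℓ := by
      have e : (1 : ℝ) / (2 * |ψ|) = 2 * (1 / (4 * |ψ|)) := by field_simp; norm_num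
      rw [e] at hℓu h16
      linarith
    rw [div_le_iff₀ (by positivity)] at h8
    linarith
  have hℓψ : (ℓ : ℝ) * |ψ| ≤ 1 / 2 := by
    rw [le_div_iff₀ (by positivity)] at hℓl
    linarith
  have hqpos : (0 : ℤ) < q := by exact_mod_cast hq1
  have hw : (0 : ℤ) < (q : ℤ) * ℓ := by positivity
  -- fibres
  have hfib : ∀ p ∈ (Finset.Icc (0 : ℤ) ((M : ℤ) / ((q : ℤ) * ℓ))) ×ˢ (Finset.Ico (0 : ℤ) q),
      (S.filter (fun m => ((m - a) / ((q : ℤ) * ℓ), (m - a) % (q : ℤ)) = p)).card ≤ ⌊2 * ε / |ψ|⌋₊ + 1 := by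
    intro p _
    set F := S.filter (fun m => ((m - a) / ((q : ℤ) * ℓ), (m - a) % (q : ℤ)) = p) with hF
    rcases F.eq_empty_or_nonempty with h | h
    · rw [h]; simp
    set m₀ := F.min' h with hm₀
    have hm₀F : m₀ ∈ F := Finset.min'_mem _ _
    have hsub : F ⊆ (Finset.range (⌊2 * ε / |ψ|⌋₊ + 1)).image (fun j : ℕ => m₀ + (q : ℤ) * j) := by
      intro m hm
      have hle : m₀ ≤ m := Finset.min'_le _ _ hm
      rw [hF, Finset.mem_filter] at hm hm₀F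
      obtain ⟨hmS, hmp⟩ := hm
      obtain ⟨hm₀S, hm₀p⟩ := hm₀F
      rw [← hm₀p, Prod.mk.injEq] at hmp
      obtain ⟨hd, hmod⟩ := hmp
      have hdvd : (q : ℤ) ∣ m - m₀ := by
        have := Int.emod_emod_of_dvd
        have h3 : (m - a) ≡ (m₀ - a) [ZMOD q] := hmod
        have h4 := h3.symm.dvd
        have e : m - a - (m₀ - a) = m - m₀ := by ring
        rwa [e] at h4
      obtain ⟨j, hj⟩ := hdvd
      have hj0 : 0 ≤ j := by
        by_contra hneg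
        push Not at hneg
        nlinarith
      have hlt2 : m - m₀ < (q : ℤ) * ℓ := by
        have e1 := Int.emod_add_mul_ediv (m - a) ((q : ℤ) * ℓ)
        have e2 := Int.emod_add_mul_ediv (m₀ - a) ((q : ℤ) * ℓ)
        have r1 := Int.emod_lt_of_pos (m - a) hw
        have r2 := Int.emod_nonneg (m₀ - a) (ne_of_gt hw)
        rw [hd] at e1
        linarith
      have hjℓ : j < ℓ := by
        rw [hj] at hlt2
        exact lt_of_mul_lt_mul_left hlt2 hqpos.le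
      have hjψ : nn ((j : ℝ) * ψ) ≤ 2 * ε := by
        have h5 := hdiff m₀ hm₀S m hmS
        rw [hj] at h5
        have e : (((q : ℤ) * j : ℤ) : ℝ) * Ψ = (j : ℝ) * ψ + ((j * round ((q : ℝ) * Ψ) : ℤ) : ℝ) := by
          rw [hψ]; push_cast; ring
        rw [e, nn_add_int] at h5
        exact h5
      have hjR : |(j : ℝ)| = j := abs_of_nonneg (by exact_mod_cast hj0)
      have hjs : |(j : ℝ) * ψ| ≤ 1 / 2 := by
        rw [abs_mul, hjR]
        refine le_trans ?_ hℓψ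
        gcongr
        exact_mod_cast hjℓ.le
      rw [nn_small _ hjs, abs_mul, hjR] at hjψ
      have hjfl : j.toNat ≤ ⌊2 * ε / |ψ|⌋₊ := by
        apply Nat.le_floor
        rw [le_div_iff₀ hψpos]
        have : ((j.toNat : ℕ) : ℝ) = (j : ℝ) := by
          exact_mod_cast (Int.toNat_of_nonneg hj0)
        rw [this]; exact hjψ
      rw [Finset.mem_image]
      refine ⟨j.toNat, Finset.mem_range.2 (by omega), ?_⟩
      have : ((j.toNat : ℕ) : ℤ) = j := Int.toNat_of_nonneg hj0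
      rw [this, ← hj]; ring
    calc F.card ≤ _ := Finset.card_le_card hsub
      _ ≤ _ := Finset.card_image_le
      _ = _ := Finset.card_range _
  have hcard := Finset.card_le_mul_card_image_of_maps_to (s := S)
    (t := (Finset.Icc (0 : ℤ) ((M : ℤ) / ((q : ℤ) * ℓ))) ×ˢ (Finset.Ico (0 : ℤ) q))
    (f := fun m => ((m - a) / ((q : ℤ) * ℓ), (m - a) % (q : ℤ))) (fun m hm => by
      have := hS hm
      rw [Finset.mem_Ico] at this
      rw [Finset.mem_product, Finset.mem_Icc, Finset.mem_Ico]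
      exact ⟨⟨Int.ediv_nonneg (by omega) hw.le, Int.ediv_le_ediv hw (by omega)⟩,
        Int.emod_nonneg _ (ne_of_gt hqpos), Int.emod_lt_of_pos _ hqpos⟩) (⌊2 * ε / |ψ|⌋₊ + 1) hfib
  rw [Finset.card_product, Int.card_Icc, Int.card_Ico] at hcard
  have hnn0 : (0 : ℤ) ≤ (M : ℤ) / ((q : ℤ) * ℓ) := Int.ediv_nonneg (by positivity) hw.le
  have hcardR : (S.card : ℝ) ≤ (2 * ε / |ψ| + 1) * ((M / (q * ℓ) + 1) * q) := by
    have h6 : (S.card : ℝ) ≤ ((⌊2 * ε / |ψ|⌋₊ + 1 : ℕ) : ℝ) *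
        ((((M : ℤ) / ((q : ℤ) * ℓ) + 1 - 0).toNat * ((q : ℤ) - 0).toNat : ℕ) : ℝ) := by
      exact_mod_cast hcard
    refine h6.trans ?_
    push_cast
    have h7 : ((((M : ℤ) / ((q : ℤ) * ℓ) + 1 - 0).toNat : ℕ) : ℝ) ≤ M / (q * ℓ) + 1 := by
      have h := Int.toNat_of_nonneg (show 0 ≤ (M : ℤ) / ((q : ℤ) * ℓ) + 1 - 0 by omega)
      have h' : ((((M : ℤ) / ((q : ℤ) * ℓ) + 1 - 0).toNat : ℤ) : ℝ) =
        (((M : ℤ) / ((q : ℤ) * ℓ) + 1 - 0 : ℤ) : ℝ) := by rw [h]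
      rw [Int.cast_natCast] at h'
      rw [h']; push_cast
      have hdiv : (((M : ℤ) / ((q : ℤ) * ℓ) : ℤ) : ℝ) ≤ (M : ℝ) / (q * ℓ) := by
        rw [le_div_iff₀ (by exact_mod_cast hw)]
        have := Int.ediv_mul_le (M : ℤ) (ne_of_gt hw)
        exact_mod_cast this
      linarith
    have h8 : ((((q : ℤ) - 0).toNat : ℕ) : ℝ) = q := by simp
    have h9 : ((⌊2 * ε / |ψ|⌋₊ : ℕ) : ℝ) ≤ 2 * ε / |ψ| := Nat.floor_le (by positivity)
    rw [h8]
    gcongr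
  -- the final computation
  have hqR0 : (0 : ℝ) < q := by exact_mod_cast hq1
  have hℓR0 : (0 : ℝ) < ℓ := by
    have : (16 : ℝ) ≤ ℓ := by exact_mod_cast hℓ16
    linarith
  have hML : (M : ℝ) / (q * ℓ) * q ≤ 4 * |ψ| * M := by
    have e : (M : ℝ) / (q * ℓ) * q = M / ℓ := by field_simp
    rw [e, div_le_iff₀ hℓR0]
    nlinarith
  have hqη : (q : ℝ) ≤ η * M / 32 := by
    refine hq2'.trans ?_
    rw [div_le_iff₀ h0]
    nlinarith
  have hx : 0 ≤ 2 * ε / |ψ| := by positivity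
  have e2 : 2 * ε / |ψ| * (4 * |ψ| * M) = 8 * ε * M := by field_simp; ring
  have hfin : η * M ≤ 8 * ε * M + 4 * |ψ| * M + 2 * ε / |ψ| * q + q := by
    calc η * M ≤ S.card := hc
      _ ≤ (2 * ε / |ψ| + 1) * ((M / (q * ℓ) + 1) * q) := hcardR
      _ = (2 * ε / |ψ| + 1) * (M / (q * ℓ) * q + q) := by ring
      _ ≤ (2 * ε / |ψ| + 1) * (4 * |ψ| * M + q) := by gcongr
      _ = 2 * ε / |ψ| * (4 * |ψ| * M) + 4 * |ψ| * M + 2 * ε / |ψ| * q + q := by ring
      _ = _ := by rw [e2]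
  have hψM : 4 * |ψ| * M ≤ 8 * ε * M := by nlinarith
  have hεM : 16 * ε * M ≤ η * M / 4 := by nlinarith
  have hfin2 : η * M / 2 ≤ 2 * ε / |ψ| * q := by nlinarith
  have hfin3 : η * M / 2 ≤ 2 * ε / |ψ| * (2 / η) := hfin2.trans (by gcongr)
  have e3 : 2 * ε / |ψ| * (2 / η) = 4 * ε / (|ψ| * η) := by
    rw [div_mul_div_comm]; ring_nf
  rw [e3, le_div_iff₀ (by positivity)] at hfin3
  have hcon2 : 64 * ε < |ψ| * (η ^ 2 * M) := by
    rwa [div_lt_iff₀ (by positivity)] at hcon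
  nlinarith

end Pool.Agent.E8helper77.GB
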